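import Mathlib
import Pool.Agent.Y827.RO.NinE

/-!
# Five ninths of the multiples of every sufficiently divisible number: prime pairs in every class, with log powers
# and along narrow progressions

Let `ε > 0`. There is `J` such that for all `q ≥ 1` and all `a` coprime to `q` there is `M` such that for EVERY
multiple `N` of `M`, in every sufficiently long window at least a proportion `5/9 - ε` of the `k` are such that
for `d = N k` there is a set `B ⊆ [0, d]` of at most `J` integers, containing `0` and `d`, such that for every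
`l` there are `C` and arbitrarily large `x` for which a difference `1 ≤ D ≤ (log x) ^ C` exists with: for at least
`x / (log x) ^ C` integers `n ≤ x` each of the `l` numbers `p = n, n + D, ..., n + (l-1) D` is a prime
`p ≡ a (mod q)`, the number `p + d` is prime, and the primes in `[p, p + d]` are exactly the `p + t`, `t ∈ B`.

Proof: the coloured Maynard-Tao theorem with the constant `18 / 5` for linear forms which are free of small prime
factors, for one exact set of forms (`Pool.Agent.Y827.RO.bigE`), the relative Szemeredi theorem for sifted sets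
(`Pool.Agent.Y677.RSZ`) and helper142's theorem on sets of differences of many classes
(`Pool.Agent.W142.TB.s_maiB`).
-/

set_option autoImplicit false

namespace Pool.Agent.Results.MP_92ef0c_nt.NarrowFiveNinths

open Filter Finset

open Classical in
/-- the number of `1 ≤ n ≤ x` such that for each of the `l` numbers `p = n, n + D, ..., n + (l - 1) D`:
`p ≡ a` modulo `q`, and the primes in `[p, p + d]` are exactly the numbers `p + t`, `t ∈ B` -/
noncomputable def starts (B : Finset ℕ) (q a d l D x : ℕ) : ℕ :=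
  ((Icc 1 x).filter (fun n : ℕ => ∀ j < l, n + j * D ≡ a [MOD q] ∧
    ∀ t ≤ d, ((n + j * D + t).Prime ↔ t ∈ B))).card

/-- the pair `0, d` has many translates `p, p + d` consisting of two primes, with `p ≡ a` modulo `q`, with the
same at most `J` primes in `[p, p + d]`, along progressions of any length with small difference -/
def Good (J q a d : ℕ) : Prop :=
  ∃ B : Finset ℕ, 0 ∈ B ∧ d ∈ B ∧ (∀ t ∈ B, t ≤ d) ∧ B.card ≤ J ∧
    ∀ l : ℕ, ∃ C : ℕ, ∃ᶠ x : ℕ in atTop, ∃ D : ℕ, 1 ≤ D ∧ (D : ℝ) ≤ (Real.log x) ^ C ∧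
      (x : ℝ) / (Real.log x) ^ C ≤ (starts B q a d l D x : ℝ)

theorem result (ε : ℝ) (hε : 0 < ε) : ∃ J : ℕ, ∀ q a : ℕ, 0 < q → Nat.Coprime a q →
    ∃ M : ℕ, 0 < M ∧ ∀ N : ℕ, 0 < N → M ∣ N → ∃ L : ℕ, ∀ T : ℕ, L ≤ T → ∀ u : ℕ,
      (5 / 9 - ε) * (T : ℝ) ≤ ({k : ℕ | u < k ∧ k ≤ u + T ∧ Good J q a (N * k)}.ncard : ℝ) := by
  obtain ⟨J, hJ⟩ := Pool.Agent.Y827.RO.winE' ε hε
  refine ⟨J, fun q a hq ha => ?_⟩
  obtain ⟨M, hM, h⟩ := hJ q a hq ha
  refine ⟨M, hM, fun N hN hd => ?_⟩
  obtain ⟨L, hL⟩ := h N hN hd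
  refine ⟨L, fun T hT u => (hL T hT u).trans ?_⟩
  rw [Nat.cast_le]
  apply Set.ncard_le_ncard
  · rintro k ⟨h1, h2, B, h3, h4, h5, h6, h7⟩
    refine ⟨h1, h2, B, h3, h4, h5, h6, fun l => ?_⟩
    obtain ⟨C, hC⟩ := h7 l
    refine ⟨C, hC.mono ?_⟩
    rintro x ⟨D, h8, h9, h10⟩
    refine ⟨D, h8, h9, h10.trans (le_of_eq ?_)⟩
    unfold starts
    congr!
  · exact (Set.finite_Icc 0 (u + T)).subset fun k hk => ⟨Nat.zero_le _, hk.2.1⟩

end Pool.Agent.Results.MP_92ef0c_nt.NarrowFiveNinths
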