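import Pool.Agent.TH977.PW.Prog
import Pool.Agent.Y677.RSZ.FinEx
import Pool.Agent.Y677.KC.Cls

set_option autoImplicit false

/-!
# Narrow arithmetic progressions of prime pairs in residue classes

For an even `d ≥ 2`, a modulus `q` and a class `a` with `(a, q) = (a + d, q) = 1` let `R d a q r` be the
set of the `n ≡ a (mod q)` for which all prime factors of `n (n + d)` are larger than `n ^ (1 / r)`; it
contains all primes `p ≡ a (mod q)` with `p + d` prime. For an ARBITRARY subset `A` of `R d a q r`, in every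
short interval all but a small proportion of the expected number of elements of `A` are terms of
`l`-term arithmetic progressions inside `A` with difference at most `(log X) ^ B`.
Moreover (Chen's theorem) one of `n`, `n + d` can be taken to be a prime and the other one a product of at
most two large primes: for squarefree `q` the number of these `n ≡ a (mod q)` has the expected order of
magnitude in all intervals of length `θ X`, and all these intervals contain narrow progressions of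
such `n`.
-/

namespace Pool.Agent.Results.MP_92ef0c_nt.NarrowProgressions

open Finset Filter
open Pool.Agent.TH977.PW (N)
open Pool.Agent.Y677.RSZ (InProg Outside)

/-- `n ≡ a (mod q)`, and all prime factors of `n` and of `n + d` are larger than `n ^ (1 / r)`. -/
def R (d a q r : ℕ) : Set ℕ :=
  {n | n ≡ a [MOD q] ∧ ∀ p : ℕ, p.Prime → p ∣ n * (n + d) → (n : ℝ) ^ (1 / (r : ℝ)) < (p : ℝ)}

/-- The `n` of `R d a q r` for which `n` and `n + d` have at most `r` prime factors. -/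
def P (d a q r : ℕ) : Set ℕ :=
  {n | n ∈ R d a q r ∧ n.primeFactorsList.length ≤ r ∧
            (n + d).primeFactorsList.length ≤ r}

/-- The pair `0, d`. -/
def e (d : ℕ) : Fin 2 → ℕ := ![0, d]

/-- The `n ≡ a (mod Q)` such that all prime factors of `n` and `n + d` are larger than `n ^ (1 / t)`,
`n + e d i` is prime, and `n + e d j` has at most two prime factors, all of them larger than
`n ^ (1 / 9)`. -/
def T (d a Q t : ℕ) (i j : Fin 2) : Set ℕ :=
  {n | n ≡ a [MOD Q] ∧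
    (∀ l, ∀ p : ℕ, p.Prime → p ∣ n + e d l → (n : ℝ) ^ (1 / (t : ℝ)) < (p : ℝ)) ∧
    (n + e d i).Prime ∧ (n + e d j).primeFactorsList.length ≤ 2 ∧
    ∀ p : ℕ, p.Prime → p ∣ n + e d j → (n : ℝ) ^ (1 / (9 : ℝ)) < (p : ℝ)}

theorem rough (d a q : ℕ) (hd2 : 2 ≤ d) (hd : Even d) (hq : 1 ≤ q) (ha : Nat.Coprime a q)
    (had : Nat.Coprime (a + d) q) (θ : ℝ) (hθ : 0 < θ) (hθ1 : θ ≤ 1) :
    ∃ r₀ : ℕ, 2 ≤ r₀ ∧ ∀ r : ℕ, r₀ ≤ r →
      (∀ n : ℕ, n ≡ a [MOD q] → n.Prime → (n + d).Prime → n ∈ R d a q r) ∧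
      (∃ κ : ℝ, 0 < κ ∧ ∀ᶠ X : ℕ in atTop, ∀ Y : ℕ, (X : ℝ) ^ θ ≤ Y → Y ≤ X →
        κ * Y / Real.log X ^ 2 ≤
          N (P d a q r) X (X + Y)) ∧
      (∀ l : ℕ, 2 ≤ l → ∀ ε : ℝ, 0 < ε → ∃ B : ℕ, ∀ᶠ X : ℕ in atTop, ∀ Y : ℕ,
        (X : ℝ) ^ θ ≤ Y → Y ≤ X → ∀ A : Set ℕ, A ⊆ R d a q r →
          (N (Outside A l (Real.log X ^ B) X (X + Y)) X (X + Y) : ℝ) ≤ ε * Y / Real.log X ^ 2) ∧
      ∀ l : ℕ, ∃ B : ℕ, ∀ᶠ X : ℕ in atTop, ∀ Y : ℕ, (X : ℝ) ^ θ ≤ Y → Y ≤ X →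
        ∃ u v : ℕ, 1 ≤ v ∧ (v : ℝ) ≤ Real.log X ^ B ∧
          ∀ i < l, u + i * v ∈ P d a q r ∧ X < u + i * v ∧ u + i * v ≤ X + Y := by
  have hne : (0 : ℕ) ≠ d := by omega
  have hmem : ∀ h : ℕ, h ∈ ({0, d} : Finset ℕ) ↔ h = 0 ∨ h = d := by
    intro h
    simp only [mem_insert, mem_singleton]
  obtain ⟨r0, hr0, h⟩ := Pool.Agent.Y677.RSZ.narrow_prog {0, d} ⟨0, by simp⟩ q a hq
    (fun h hh => by
      rcases (hmem h).1 hh with rfl | rfl
      · exact ha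
      · exact had)
    (fun p hp => by
      by_cases h2 : p = 2
      · subst h2
        refine ⟨1, fun h hh hdv => ?_⟩
        rcases (hmem h).1 hh with rfl | rfl
        · omega
        · obtain ⟨e, he⟩ := hd
          omega
      · have hp3 : 3 ≤ p := by
          have := hp.two_le
          omega
        by_cases h1 : p ∣ 1 + d
        · refine ⟨2, fun h hh hdv => ?_⟩
          rcases (hmem h).1 hh with rfl | rfl
          · have := Nat.le_of_dvd (by norm_num) hdv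
            omega
          · have h3 : p ∣ (2 + h) - (1 + h) := Nat.dvd_sub hdv h1
            have h4 : (2 + h) - (1 + h) = 1 := by omega
            rw [h4] at h3
            exact hp.one_lt.ne' (Nat.dvd_one.1 h3)
        · refine ⟨1, fun h hh hdv => ?_⟩
          rcases (hmem h).1 hh with rfl | rfl
          · exact hp.one_lt.ne' (Nat.dvd_one.1 hdv)
          · exact h1 hdv)
    (fun r => R d a q r)
    (fun r => P d a q r) 2
    (by rw [card_insert_of_notMem (by simpa using hne), card_singleton])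
    (fun r m _ hm h hh p hp hdv => by
      refine hm.2 p hp ?_
      rcases (hmem h).1 hh with rfl | rfl
      · exact Dvd.dvd.mul_right (by simpa using hdv) _
      · exact Dvd.dvd.mul_left hdv _)
    (fun r _ => Eventually.of_forall (fun m hmod h1 h2 => ⟨⟨hmod, fun p hp hdv => by
      rcases (Nat.Prime.dvd_mul hp).1 hdv with h3 | h3
      · exact h1 0 ((hmem 0).2 (Or.inl rfl)) p hp (by simpa using h3)
      · exact h1 d ((hmem d).2 (Or.inr rfl)) p hp h3⟩,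
      by simpa using h2 0 ((hmem 0).2 (Or.inl rfl)), h2 d ((hmem d).2 (Or.inr rfl))⟩)) θ hθ hθ1
  refine ⟨r0, hr0, fun r hr => ⟨?_, (h r hr).1, (h r hr).2,
    Pool.Agent.Y677.RSZ.exists_prog (fun _ hm => hm.1) 2 (h r hr).1 (h r hr).2⟩⟩
  intro n hmod hn hnd
  have h2r : 2 ≤ r := hr0.trans hr
  refine ⟨hmod, fun p hp hdv => ?_⟩
  rcases (Nat.Prime.dvd_mul hp).1 hdv with h3 | h3
  · exact Pool.Agent.TH977.PW.rpow_lt_dvd r n p h2r hn hp h3
  · rw [(Nat.prime_dvd_prime_iff_eq hp hnd).1 h3]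
    exact Pool.Agent.TH977.PW.rpow_lt_of_le r n _ h2r hn.two_le (by omega)

lemma pat (d : ℕ) (hd2 : 2 ≤ d) (hd : Even d) : Pool.Agent.Y677.KC.Pat (e d) where
  inj := by
    intro i j h
    fin_cases i <;> fin_cases j
    · rfl
    · have h1 : 0 = d := h
      omega
    · have h1 : d = 0 := h
      omega
    · rfl
  adm := by
    intro p hp
    have key : ∀ m : ℕ, ¬ p ∣ m → ¬ p ∣ m + d → ∀ l : Fin 2, ¬ p ∣ m + e d l := by
      intro m h1 h2 l
      fin_cases l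
      · exact h1
      · exact h2
    by_cases h2 : p = 2
    · subst h2
      refine ⟨1, key 1 (by norm_num) ?_⟩
      obtain ⟨e, he⟩ := hd
      omega
    · have hp3 : 3 ≤ p := by
        have := hp.two_le
        omega
      by_cases h1 : p ∣ 1 + d
      · refine ⟨2, key 2 ?_ ?_⟩
        · intro hdv
          have := Nat.le_of_dvd (by norm_num) hdv
          omega
        · intro hdv
          have h3 : p ∣ (2 + d) - (1 + d) := Nat.dvd_sub hdv h1
          have h4 : (2 + d) - (1 + d) = 1 := by omega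
          rw [h4] at h3
          exact hp.one_lt.ne' (Nat.dvd_one.1 h3)
      · exact ⟨1, key 1 (fun h => hp.one_lt.ne' (Nat.dvd_one.1 h)) h1⟩

/-- **Narrow progressions of prime pairs in residue classes.** -/
theorem result :
    (∀ d a Q : ℕ, 2 ≤ d → Even d → Squarefree Q → Nat.Coprime a Q → Nat.Coprime (a + d) Q →
      ∃ t : ℕ, 2 ≤ t ∧
        (∀ n : ℕ, n ≡ a [MOD Q] → n.Prime → (n + d).Prime → ∀ i j : Fin 2, n ∈ T d a Q t i j) ∧
        (∃ κ : ℝ, 0 < κ ∧ ∀ θ : ℝ, 0 < θ → ∀ᶠ X : ℕ in atTop, ∀ i j : Fin 2, i ≠ j → ∀ Y : ℕ,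
          θ * X ≤ Y → Y ≤ X → κ * Y / Real.log X ^ 2 ≤ N (T d a Q t i j) X (X + Y)) ∧
        ∀ i j : Fin 2, i ≠ j → ∀ θ : ℝ, 0 < θ → ∀ l : ℕ, ∃ B : ℕ, ∀ᶠ X : ℕ in atTop, ∀ Y : ℕ,
          θ * X ≤ Y → Y ≤ X → ∃ u v : ℕ, 1 ≤ v ∧ (v : ℝ) ≤ Real.log X ^ B ∧
            ∀ m < l, u + m * v ∈ T d a Q t i j ∧ X < u + m * v ∧ u + m * v ≤ X + Y) ∧
    ∀ d a q : ℕ, 2 ≤ d → Even d → 1 ≤ q → Nat.Coprime a q → Nat.Coprime (a + d) q →
      ∀ θ : ℝ, 0 < θ → θ ≤ 1 → ∃ r₀ : ℕ, 2 ≤ r₀ ∧ ∀ r : ℕ, r₀ ≤ r →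
        (∀ n : ℕ, n ≡ a [MOD q] → n.Prime → (n + d).Prime → n ∈ R d a q r) ∧
        (∃ κ : ℝ, 0 < κ ∧ ∀ᶠ X : ℕ in atTop, ∀ Y : ℕ, (X : ℝ) ^ θ ≤ Y → Y ≤ X →
          κ * Y / Real.log X ^ 2 ≤
            N (P d a q r) X (X + Y)) ∧
        (∀ l : ℕ, 2 ≤ l → ∀ ε : ℝ, 0 < ε → ∃ B : ℕ, ∀ᶠ X : ℕ in atTop, ∀ Y : ℕ,
          (X : ℝ) ^ θ ≤ Y → Y ≤ X → ∀ A : Set ℕ, A ⊆ R d a q r →
            (N (Outside A l (Real.log X ^ B) X (X + Y)) X (X + Y) : ℝ) ≤ ε * Y / Real.log X ^ 2) ∧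
        ∀ l : ℕ, ∃ B : ℕ, ∀ᶠ X : ℕ in atTop, ∀ Y : ℕ, (X : ℝ) ^ θ ≤ Y → Y ≤ X →
          ∃ u v : ℕ, 1 ≤ v ∧ (v : ℝ) ≤ Real.log X ^ B ∧
            ∀ i < l, u + i * v ∈ P d a q r ∧ X < u + i * v ∧ u + i * v ≤ X + Y := by
  refine ⟨fun d a Q hd2 hd hQ ha had => ?_,
    fun d a q hd2 hd hq ha had θ hθ hθ1 => rough d a q hd2 hd hq ha had θ hθ hθ1⟩
  obtain ⟨t, ht, h1, h2⟩ := Pool.Agent.Y677.KC.pattern_cls (by norm_num) (e d) (pat d hd2 hd) a Q hQ
    (fun l => by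
      fin_cases l
      · exact ha
      · exact had)
  refine ⟨t, ht, fun n hna hn hnd i j => ⟨hna, ?_⟩, h1, h2⟩
  refine Pool.Agent.Y677.KC.mem_T_of_prime (e d) t ht n (fun l => ?_) i j
  fin_cases l
  · exact hn
  · exact hnd

end Pool.Agent.Results.MP_92ef0c_nt.NarrowProgressions
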