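import Pool.Agent.Y885.PD2

/-!
# Prime pairs in progressions, uniformly in the modulus: the difference is a random sum with up to two fifths of
the scales missing

Definition used: `Pool.Agent.H560R3.GB.C₂`, the twin prime constant `∏_{p > 2} (1 - 1 / (p - 1) ^ 2)`
(the infimum of the partial products).
-/

set_option autoImplicit false

namespace Pool.Agent.Results.MP_92ef0c_nt.RandomSumDifferences

open Finset Pool.Agent.H560R3.GB

open Classical in
/-- `π_d(x; a, q)`: the number of primes `p ≤ x` with `p + d ≤ x` prime and `p ≡ a (mod q)`. (For even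
`d > 0` such a prime `p` is automatically odd.) -/
noncomputable def pairs (d : ℕ) (x : ℝ) (a q : ℕ) : ℕ :=
  ((range (⌊x⌋₊ + 1)).filter (fun p => p.Prime ∧ (p + d).Prime ∧ (p : ℝ) + d ≤ x ∧ p ≡ a [MOD q])).card

/-- The main term `M_d(x; q)` of the problem. -/
noncomputable def main (d : ℕ) (x : ℝ) (q : ℕ) : ℝ :=
  2 / (((range q).filter (fun α => Nat.Coprime α q ∧ Nat.Coprime (α + d) q)).card : ℝ) *
    (∏ p ∈ d.primeFactors.filter (fun p => 2 < p), ((p : ℝ) - 1) / ((p : ℝ) - 2)) * C₂ *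
    ∫ t in (2 : ℝ)..x, 1 / Real.log t ^ 2

/-- The estimate of the problem with the bound `X / (log X) ^ C`, for all `x ≤ X`, all moduli
`q ≤ (log X) ^ B`, all admissible classes `a`, and all even `d` with `D₀ ≤ d ≤ D₀ + (log X) ^ A`. -/
def Holds (A B C X D₀ : ℕ) : Prop :=
  ∀ d q a : ℕ, D₀ ≤ d → (d : ℝ) ≤ D₀ + Real.log X ^ A → 0 < d → Even d → 1 ≤ q → (q : ℝ) ≤ Real.log X ^ B →
    Nat.Coprime a q → Nat.Coprime (a + d) q → ∀ x : ℝ, 2 ≤ x → x ≤ X →
    |(pairs d x a q : ℝ) - main d x q| ≤ X / Real.log X ^ C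

/-- The set `J` of scales below `k` is rich: it contains more than three fifths of all the scales, more than one half
of the `m` lowest scales, and a positive proportion of the `m` highest scales (the last two conditions are
void for `m ≤ D log k`). -/
structure Rich (δ : ℝ) (D k : ℕ) (J : Finset ℕ) : Prop where
  lt : ∀ j ∈ J, j < k
  all : (3 / 5 + δ) * k ≤ (J.card : ℝ)
  low : ∀ m ≤ k, (1 / 2 + δ) * m ≤ ((J.filter fun j => j < m).card : ℝ) + D * Real.log k
  high : ∀ m ≤ k, δ * m ≤ ((J.filter fun j => k - m ≤ j).card : ℝ) + D * Real.log k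

open Classical in
/-- The probability of the event `E` if `x 0, ..., x (k - 1)` are independent random integers, where `x j` takes
its values in the finite set `s j`, and the value `v` with the probability `p j v`. -/
noncomputable def Prob (k : ℕ) (s : ℕ → Finset ℤ) (p : ℕ → ℤ → ℝ) (E : (Fin k → ℤ) → Prop) : ℝ :=
  ∑ x ∈ Fintype.piFinset (fun j : Fin k => s j), if E x then ∏ j : Fin k, p j (x j) else 0

/-- Let `b ≥ 2`, `B₀ ≥ 1`, `D`, `A`, `B`, `C`, `U`, `W`, `η > 0` and `δ > 0` be fixed, let `k` be large, and let `J` be an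
arbitrary rich set of scales below `k`. Let `x 0, ..., x (k - 1)` be arbitrary independent random integers with
`|x j| ≤ B₀ b ^ j` such that, for all `j` in `J`, no interval of the length `b ^ j / B₀` contains `x j` with a
probability larger than `1 - η` (nothing is assumed for the other `j`: these `x j` may be constants). Let `c` be an
arbitrary integer with `|c| ≤ B₀ b ^ k`, and let `X ≥ b ^ k` be a number with
`b ^ k (log X) ^ (C + 6) ≤ X ≤ b ^ k (log X) ^ W`. Then, with a probability of at least `1 - 1 / k ^ U`, the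
integer `D₀ = c + x 0 + ... + x (k - 1)` has the following property: if it is not negative, then for all even `d > 0` with
`D₀ ≤ d ≤ D₀ + (log X) ^ A`, all `x ≤ X`, all `q ≤ (log X) ^ B` and all `a` with `(a, q) = (a + d, q) = 1`,
`|π_d(x; a, q) - M_d(x; q)| ≤ X / (log X) ^ C`. -/
theorem result (b B₀ D A B C U W : ℕ) (hb : 2 ≤ b) (hB : 1 ≤ B₀) (η δ : ℝ) (hη : 0 < η) (hδ : 0 < δ) :
    ∃ k₀ : ℕ, ∀ k : ℕ, k₀ ≤ k → ∀ J : Finset ℕ, Rich δ D k J → ∀ (s : ℕ → Finset ℤ) (p : ℕ → ℤ → ℝ),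
      (∀ j < k, (∀ x ∈ s j, 0 ≤ p j x ∧ |x| ≤ (B₀ : ℤ) * (b : ℤ) ^ j) ∧ ∑ x ∈ s j, p j x = 1) →
      (∀ j ∈ J, ∀ y : ℤ, ∑ x ∈ (s j).filter (fun x => y ≤ x ∧ (B₀ : ℤ) * (x - y) ≤ (b : ℤ) ^ j), p j x ≤ 1 - η) →
      ∀ c : ℤ, |c| ≤ (B₀ : ℤ) * (b : ℤ) ^ k →
      ∀ X : ℕ, (b : ℝ) ^ k ≤ X → (b : ℝ) ^ k * Real.log X ^ (C + 6) ≤ X → (X : ℝ) ≤ (b : ℝ) ^ k * Real.log X ^ W →
        Prob k s p (fun x => 0 ≤ c + ∑ j, x j ∧ ¬ Holds A B C X (c + ∑ j, x j).toNat) ≤ 1 / (k : ℝ) ^ U := by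
  classical
  obtain ⟨k₀, h0⟩ := Pool.Agent.Y885.rs_goodD b B₀ D A B C U W hb hB η δ hη hδ
  refine ⟨k₀, fun k hk J hJ s p hs hp c hc X hX0 hX1 hX2 => ?_⟩
  have h1 := h0 k hk J s p c ⟨hJ.lt, hJ.low, hJ.high, hJ.all⟩ hs hp hc X hX0 hX1 hX2
    (fun x => 0 ≤ c + ∑ j, x j ∧ ¬ Holds A B C X (c + ∑ j, x j).toNat) (Classical.decPred _) (by
      intro x hx
      refine ⟨hx.1, fun hgood => hx.2 ?_⟩
      intro d q a hd1 hd2 hd0 hdev hq1 hq2 ha had x hx2 hxX
      obtain ⟨δ, hδ⟩ := Nat.exists_eq_add_of_le hd1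
      subst hδ
      have hδL : (δ : ℝ) ≤ Real.log X ^ A := by
        push_cast at hd2 ⊢
        linarith
      have h2 := hgood δ q a hδL hq1 hq2 ha had hdev.two_dvd hd0.ne' x hx2 hxX
      have e1 : ∀ m : ℕ, main m x q = sing m / Pool.Agent.W93.PP.Cnt q m * Pool.Agent.W93.PP.Li2 x := by
        intro m
        unfold main sing Pool.Agent.W93.PP.Cnt Pool.Agent.W93.PP.Li2
        ring
      rw [e1]
      exact h2)
  refine le_trans (le_of_eq ?_) h1
  unfold Prob
  apply sum_congr rfl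
  intro x _
  split_ifs <;> rfl

end Pool.Agent.Results.MP_92ef0c_nt.RandomSumDifferences
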