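import Pool.Agent.TH977.PW.Prog

set_option autoImplicit false

/-!
# Regular neighbourhoods of prime pairs in arithmetic progressions

For an even `d ≥ 2`, a modulus `q` and a class `a` with `(a, q) = (a + d, q) = 1` let `R d a q r` be the
set of the `n ≡ a (mod q)` for which all prime factors of `n (n + d)` are larger than `n ^ (1 / r)`; it
contains all primes `p ≡ a (mod q)` with `p + d` prime. For an ARBITRARY subset `A` of `R d a q r`, in every
short interval all but a small proportion of the elements of `A` are regular points of `A`.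
-/

namespace Pool.Agent.Results.MP_92ef0c_nt.RegularPairs

open Finset Filter
open Pool.Agent.TH977.PW (N Irregular)

/-- `n ≡ a (mod q)`, and all prime factors of `n` and of `n + d` are larger than `n ^ (1 / r)`. -/
def R (d a q r : ℕ) : Set ℕ :=
  {n | n ≡ a [MOD q] ∧ ∀ p : ℕ, p.Prime → p ∣ n * (n + d) → (n : ℝ) ^ (1 / (r : ℝ)) < (p : ℝ)}

/-- **Regular neighbourhoods of prime pairs in arithmetic progressions.** -/
theorem result (d a q : ℕ) (hd2 : 2 ≤ d) (hd : Even d) (hq : 1 ≤ q) (ha : Nat.Coprime a q)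
    (had : Nat.Coprime (a + d) q) (θ : ℝ) (hθ : 0 < θ) (hθ1 : θ ≤ 1) :
    ∃ r₀ : ℕ, 2 ≤ r₀ ∧ ∀ r : ℕ, r₀ ≤ r →
      (∀ n : ℕ, n ≡ a [MOD q] → n.Prime → (n + d).Prime → n ∈ R d a q r) ∧
      (∃ κ : ℝ, 0 < κ ∧ ∀ᶠ X : ℕ in atTop, ∀ Y : ℕ, (X : ℝ) ^ θ ≤ Y → Y ≤ X →
        κ * Y / Real.log X ^ 2 ≤
          N {n | n ∈ R d a q r ∧ n.primeFactorsList.length ≤ r ∧
            (n + d).primeFactorsList.length ≤ r} X (X + Y)) ∧
      ∀ ε : ℝ, 0 < ε → ∃ c : ℝ, 0 < c ∧ ∀ δ : ℝ, 0 < δ → ∃ B : ℕ,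
        ∀ᶠ X : ℕ in atTop, ∀ Y : ℕ, (X : ℝ) ^ θ ≤ Y → 2 * Y ≤ X → ∀ A : Set ℕ, A ⊆ R d a q r →
          (N (Irregular A 2 c δ B X Y) X (X + Y) : ℝ) ≤ ε * Y / Real.log X ^ 2 := by
  have hne : (0 : ℕ) ≠ d := by omega
  have hmem : ∀ h : ℕ, h ∈ ({0, d} : Finset ℕ) ↔ h = 0 ∨ h = d := by
    intro h
    simp only [mem_insert, mem_singleton]
  obtain ⟨r0, hr0, h⟩ := Pool.Agent.TH977.PW.final_prog {0, d} ⟨0, by simp⟩ q a hq
    (fun h hh => by
      rcases (hmem h).1 hh with rfl | rfl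
      · exact ha
      · exact had)
    (fun p hp => by
      by_cases h2 : p = 2
      · subst h2
        refine ⟨1, fun h hh hdv => ?_⟩
        rcases (hmem h).1 hh with rfl | rfl
        · omega
        · obtain ⟨e, he⟩ := hd
          omega
      · have hp3 : 3 ≤ p := by
          have := hp.two_le
          omega
        by_cases h1 : p ∣ 1 + d
        · refine ⟨2, fun h hh hdv => ?_⟩
          rcases (hmem h).1 hh with rfl | rfl
          · have := Nat.le_of_dvd (by norm_num) hdv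
            omega
          · have h3 : p ∣ (2 + h) - (1 + h) := Nat.dvd_sub hdv h1
            have h4 : (2 + h) - (1 + h) = 1 := by omega
            rw [h4] at h3
            exact hp.one_lt.ne' (Nat.dvd_one.1 h3)
        · refine ⟨1, fun h hh hdv => ?_⟩
          rcases (hmem h).1 hh with rfl | rfl
          · exact hp.one_lt.ne' (Nat.dvd_one.1 hdv)
          · exact h1 hdv)
    (fun r => R d a q r)
    (fun r => {n | n ∈ R d a q r ∧ n.primeFactorsList.length ≤ r ∧
            (n + d).primeFactorsList.length ≤ r}) 2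
    (by rw [card_insert_of_notMem (by simpa using hne), card_singleton])
    (fun r m _ hm h hh p hp hdv => by
      refine hm.2 p hp ?_
      rcases (hmem h).1 hh with rfl | rfl
      · exact Dvd.dvd.mul_right (by simpa using hdv) _
      · exact Dvd.dvd.mul_left hdv _)
    (fun r _ => Eventually.of_forall (fun m hmod h1 h2 => ⟨⟨hmod, fun p hp hdv => by
      rcases (Nat.Prime.dvd_mul hp).1 hdv with h3 | h3
      · exact h1 0 ((hmem 0).2 (Or.inl rfl)) p hp (by simpa using h3)
      · exact h1 d ((hmem d).2 (Or.inr rfl)) p hp h3⟩,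
      by simpa using h2 0 ((hmem 0).2 (Or.inl rfl)), h2 d ((hmem d).2 (Or.inr rfl))⟩)) θ hθ hθ1
  refine ⟨r0, hr0, fun r hr => ⟨?_, (h r hr).1, (h r hr).2⟩⟩
  intro n hmod hn hnd
  have h2r : 2 ≤ r := hr0.trans hr
  refine ⟨hmod, fun p hp hdv => ?_⟩
  rcases (Nat.Prime.dvd_mul hp).1 hdv with h3 | h3
  · exact Pool.Agent.TH977.PW.rpow_lt_dvd r n p h2r hn hp h3
  · rw [(Nat.prime_dvd_prime_iff_eq hp hnd).1 h3]
    exact Pool.Agent.TH977.PW.rpow_lt_of_le r n _ h2r hn.two_le (by omega)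

end Pool.Agent.Results.MP_92ef0c_nt.RegularPairs
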